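import Mathlib

section

/-!
Finite Ramsey theorem for `k`-subsets, in the form of order embeddings.
-/

namespace Pool.Agent.Lib.MP_d7e043_co

open Finset

/-- Homogeneous subset property for `k`-subsets of naturals. -/
def HomProp (r k : ℕ) : Prop :=
  ∀ m : ℕ, ∃ N : ℕ, ∀ S : Finset ℕ, N ≤ S.card → ∀ c : Finset ℕ → Fin (r + 1),
    ∃ T ⊆ S, T.card = m ∧ ∃ a : Fin (r + 1), ∀ A ⊆ T, A.card = k → c A = a

theorem homProp_zero (r : ℕ) : HomProp r 0 := by
  intro m
  refine ⟨m, fun S hS c => ?_⟩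
  obtain ⟨T, hT, hcard⟩ := Finset.exists_subset_card_eq hS
  refine ⟨T, hT, hcard, c ∅, fun A _ hA => ?_⟩
  rw [Finset.card_eq_zero.1 hA]

theorem endHom {r k : ℕ} (hk : HomProp r k) (p : ℕ) :
    ∃ N : ℕ, ∀ S : Finset ℕ, N ≤ S.card → ∀ c : Finset ℕ → Fin (r + 1),
      ∃ T ⊆ S, T.card = p ∧ ∃ d : ℕ → Fin (r + 1), ∀ y ∈ T, ∀ B ⊆ T, (∀ z ∈ B, y < z) →
        B.card = k → c (insert y B) = d y := by
  induction p with
  | zero =>
    refine ⟨0, fun S _ c => ⟨∅, Finset.empty_subset _, rfl, fun _ => 0, ?_⟩⟩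
    intro y hy
    exact absurd hy (Finset.notMem_empty y)
  | succ p ih =>
    obtain ⟨Np, hNp⟩ := ih
    obtain ⟨N, hN⟩ := hk Np
    refine ⟨N + 1, fun S hS c => ?_⟩
    have hne : S.Nonempty := by
      rw [← Finset.card_pos]; omega
    obtain ⟨x, hx, hxmin⟩ : ∃ x ∈ S, ∀ y ∈ S, x ≤ y :=
      ⟨S.min' hne, S.min'_mem hne, fun y hy => S.min'_le y hy⟩
    have hcard : N ≤ (S.erase x).card := by
      rw [Finset.card_erase_of_mem hx]; omega
    obtain ⟨T', hT', hT'card, a, ha⟩ := hN (S.erase x) hcard (fun B => c (insert x B))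
    obtain ⟨T, hT, hTcard, d, hd⟩ := hNp T' (le_of_eq hT'card.symm) c
    have hxT : x ∉ T := fun h => (Finset.notMem_erase x S) (hT' (hT h))
    have hlt : ∀ z ∈ T, x < z := by
      intro z hz
      have h1 : z ∈ S.erase x := hT' (hT hz)
      have h2 := hxmin z (Finset.mem_of_mem_erase h1)
      exact lt_of_le_of_ne h2 (Finset.ne_of_mem_erase h1).symm
    refine ⟨insert x T, ?_, ?_, fun y => if y = x then a else d y, ?_⟩
    · intro z hz
      rcases Finset.mem_insert.1 hz with rfl | hz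
      · exact hx
      · exact Finset.mem_of_mem_erase (hT' (hT hz))
    · rw [Finset.card_insert_of_notMem hxT, hTcard]
    · intro y hy B hB hyB hBk
      change c (insert y B) = if y = x then a else d y
      by_cases hyx : y = x
      · subst hyx
        rw [if_pos rfl]
        refine ha B ?_ hBk
        intro z hz
        rcases Finset.mem_insert.1 (hB hz) with h | h
        · exact absurd (hyB z hz) (by rw [h]; exact lt_irrefl _)
        · exact hT h
      · rw [if_neg hyx]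
        have hyT : y ∈ T := by
          rcases Finset.mem_insert.1 hy with h | h
          · exact absurd h hyx
          · exact h
        refine hd y hyT B ?_ hyB hBk
        intro z hz
        rcases Finset.mem_insert.1 (hB hz) with h | h
        · exfalso
          have h1 := hyB z hz
          have h2 := hlt y hyT
          omega
        · exact h

theorem homProp_succ {r k : ℕ} (hk : HomProp r k) : HomProp r (k + 1) := by
  intro m
  obtain ⟨N, hN⟩ := endHom hk (m * (r + 1))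
  refine ⟨N, fun S hS c => ?_⟩
  obtain ⟨T, hT, hTcard, d, hd⟩ := hN S hS c
  have hpig : ∃ a ∈ (Finset.univ : Finset (Fin (r + 1))), m ≤ (T.filter (fun y => d y = a)).card := by
    apply Finset.exists_le_card_fiber_of_mul_le_card_of_maps_to
    · intro y _
      exact Finset.mem_univ _
    · exact Finset.univ_nonempty
    · rw [Finset.card_univ, Fintype.card_fin, hTcard, mul_comm]
  obtain ⟨a, -, ha⟩ := hpig
  obtain ⟨U, hU, hUcard⟩ := Finset.exists_subset_card_eq ha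
  refine ⟨U, ?_, hUcard, a, ?_⟩
  · intro z hz
    exact hT (Finset.mem_of_mem_filter z (hU hz))
  · intro A hA hAk
    have hne : A.Nonempty := by rw [← Finset.card_pos]; omega
    obtain ⟨y, hy, hymin⟩ : ∃ y ∈ A, ∀ z ∈ A, y ≤ z :=
      ⟨A.min' hne, A.min'_mem hne, fun z hz => A.min'_le z hz⟩
    have hyU := hU (hA hy)
    rw [Finset.mem_filter] at hyU
    have h1 := hd y hyU.1 (A.erase y) ?_ ?_ ?_
    · rw [Finset.insert_erase hy] at h1
      rw [h1, hyU.2]
    · intro z hz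
      exact (Finset.mem_filter.1 (hU (hA (Finset.mem_of_mem_erase hz)))).1
    · intro z hz
      exact lt_of_le_of_ne (hymin z (Finset.mem_of_mem_erase hz)) (Finset.ne_of_mem_erase hz).symm
    · rw [Finset.card_erase_of_mem hy]; omega

theorem homProp (r k : ℕ) : HomProp r k := by
  induction k with
  | zero => exact homProp_zero r
  | succ k ih => exact homProp_succ ih

/-- Finite Ramsey theorem, order embedding form. -/
theorem ramsey (k m r : ℕ) : ∃ N : ℕ, ∀ c : (Fin k ↪o Fin N) → Fin (r + 1),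
    ∃ e : Fin m ↪o Fin N, ∃ a, ∀ f : Fin k ↪o Fin m, c (f.trans e) = a := by
  classical
  obtain ⟨N, hN⟩ := homProp r k m
  refine ⟨N, fun c => ?_⟩
  -- colour of a finset
  let col : Finset ℕ → Fin (r + 1) := fun A =>
    if h : ∃ f : Fin k ↪o Fin N, A = Finset.univ.map (f.toEmbedding.trans ⟨Fin.val, Fin.val_injective⟩)
    then c h.choose else 0
  obtain ⟨T, hT, hTcard, a, ha⟩ := hN (Finset.range N) (by rw [Finset.card_range]) col
  have hlt : ∀ i, T.orderEmbOfFin hTcard i < N := fun i =>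
    Finset.mem_range.1 (hT (Finset.orderEmbOfFin_mem T hTcard i))
  let e : Fin m ↪o Fin N := OrderEmbedding.ofStrictMono
    (fun i => ⟨T.orderEmbOfFin hTcard i, hlt i⟩) (by
      intro i j hij
      exact (T.orderEmbOfFin hTcard).strictMono hij)
  refine ⟨e, a, fun f => ?_⟩
  have key : ∃ g : Fin k ↪o Fin N,
      Finset.univ.map ((f.trans e).toEmbedding.trans ⟨Fin.val, Fin.val_injective⟩) =
      Finset.univ.map (g.toEmbedding.trans ⟨Fin.val, Fin.val_injective⟩) := ⟨f.trans e, rfl⟩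
  have hcol : col (Finset.univ.map ((f.trans e).toEmbedding.trans ⟨Fin.val, Fin.val_injective⟩)) =
      c (f.trans e) := by
    have h1 : col (Finset.univ.map ((f.trans e).toEmbedding.trans ⟨Fin.val, Fin.val_injective⟩)) =
      c key.choose := dif_pos key
    rw [h1]
    congr 1
    -- uniqueness
    have hs := key.choose_spec
    have hr : Set.range key.choose = Set.range (f.trans e) := by
      ext x
      have h2 : ∀ g : Fin k ↪o Fin N, x ∈ Set.range g ↔
          (x : ℕ) ∈ Finset.univ.map (g.toEmbedding.trans ⟨Fin.val, Fin.val_injective⟩) := by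
        intro g
        simp only [Set.mem_range, Finset.mem_map, Finset.mem_univ, true_and,
          Function.Embedding.trans_apply, Function.Embedding.coeFn_mk]
        constructor
        · rintro ⟨y, rfl⟩
          exact ⟨y, rfl⟩
        · rintro ⟨y, hy⟩
          exact ⟨y, Fin.val_injective hy⟩
      rw [h2, h2, ← hs]
    exact (OrderEmbedding.range_inj).1 hr
  rw [← hcol]
  apply ha
  · intro x hx
    rw [Finset.mem_map] at hx
    obtain ⟨i, -, rfl⟩ := hx
    exact Finset.orderEmbOfFin_mem T hTcard (f i)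
  · rw [Finset.card_map, Finset.card_univ, Fintype.card_fin]

end Pool.Agent.Lib.MP_d7e043_co
end

section

/-!
Finite Ramsey witnesses for squared distance matrices, and closure properties.
-/

namespace Pool.Agent.Lib.MP_d7e043_co

open Finset

/-- There is a finite point set every `α`-colouring of which contains a monochromatic
family with squared distance matrix `D`. -/
def FR (α : Type) {ι : Type} (D : ι → ι → ℝ) : Prop :=
  ∃ (κ : Type) (_ : Fintype κ) (N : ℕ) (z : κ → EuclideanSpace ℝ (Fin N)),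
    ∀ c : κ → α, ∃ g : ι → κ, (∀ i j, ‖z (g i) - z (g j)‖ ^ 2 = D i j) ∧
      ∀ i j, c (g i) = c (g j)

/-- `D` is a Ramsey squared distance matrix. -/
def Ram {ι : Type} (D : ι → ι → ℝ) : Prop := ∀ r : ℕ, FR (Fin r) D

theorem FR.of_space {α : Type} {ι : Type} {D : ι → ι → ℝ} {κ : Type} [Fintype κ] {H : Type}
    [NormedAddCommGroup H] [InnerProductSpace ℝ H] [FiniteDimensional ℝ H] (z : κ → H)
    (h : ∀ c : κ → α, ∃ g : ι → κ, (∀ i j, ‖z (g i) - z (g j)‖ ^ 2 = D i j) ∧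
      ∀ i j, c (g i) = c (g j)) : FR α D := by
  refine ⟨κ, inferInstance, Module.finrank ℝ H,
    fun x => (stdOrthonormalBasis ℝ H).repr (z x), fun c => ?_⟩
  obtain ⟨g, hg, hc⟩ := h c
  refine ⟨g, fun i j => ?_, hc⟩
  rw [← hg i j, ← map_sub, LinearIsometryEquiv.norm_map]

theorem FR.color {α β : Type} {ι : Type} {D : ι → ι → ℝ} (i : β → α)
    (hi : Function.Injective i) (h : FR α D) : FR β D := by
  obtain ⟨κ, hκ, N, z, hz⟩ := h
  refine ⟨κ, hκ, N, z, fun c => ?_⟩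
  obtain ⟨g, hg, hc⟩ := hz (fun x => i (c x))
  exact ⟨g, hg, fun a b => hi (hc a b)⟩

theorem Ram.fr {α : Type} [Finite α] {ι : Type} {D : ι → ι → ℝ} (h : Ram D) : FR α D := by
  obtain ⟨n, ⟨e⟩⟩ := Finite.exists_equiv_fin α
  exact (h n).color e e.injective

theorem FR.comp {α : Type} {ι ι' : Type} {D : ι → ι → ℝ} (f : ι' → ι) (h : FR α D) :
    FR α (fun i j => D (f i) (f j)) := by
  obtain ⟨κ, hκ, N, z, hz⟩ := h
  refine ⟨κ, hκ, N, z, fun c => ?_⟩
  obtain ⟨g, hg, hc⟩ := hz c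
  exact ⟨fun i => g (f i), fun i j => hg _ _, fun i j => hc _ _⟩

theorem Ram.comp {ι ι' : Type} {D : ι → ι → ℝ} (f : ι' → ι) (h : Ram D) :
    Ram (fun i j => D (f i) (f j)) := fun r => (h r).comp f

theorem Ram.diag {ι : Type} {D : ι → ι → ℝ} (h : Ram D) (i : ι) : D i i = 0 := by
  obtain ⟨κ, hκ, N, z, hz⟩ := h 1
  obtain ⟨g, hg, -⟩ := hz (fun _ => 0)
  rw [← hg i i, sub_self, norm_zero]
  norm_num

theorem Ram.symm {ι : Type} {D : ι → ι → ℝ} (h : Ram D) (i j : ι) : D i j = D j i := by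
  obtain ⟨κ, hκ, N, z, hz⟩ := h 1
  obtain ⟨g, hg, -⟩ := hz (fun _ => 0)
  rw [← hg i j, ← hg j i, norm_sub_rev]

theorem Ram.smul {ι : Type} {D : ι → ι → ℝ} (h : Ram D) {a : ℝ} (ha : 0 ≤ a) :
    Ram (fun i j => a * D i j) := by
  intro r
  obtain ⟨κ, hκ, N, z, hz⟩ := h r
  refine ⟨κ, hκ, N, fun x => Real.sqrt a • z x, fun c => ?_⟩
  obtain ⟨g, hg, hc⟩ := hz c
  refine ⟨g, fun i j => ?_, hc⟩
  change ‖Real.sqrt a • z (g i) - Real.sqrt a • z (g j)‖ ^ 2 = a * D i j
  rw [← smul_sub, norm_smul, mul_pow, hg i j, Real.norm_eq_abs, sq_abs, Real.sq_sqrt ha]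

theorem Ram.zero {ι : Type} : Ram (fun _ _ : ι => (0 : ℝ)) := by
  intro r
  refine ⟨Unit, inferInstance, 0, fun _ => 0, fun c => ⟨fun _ => (), fun i j => ?_, fun _ _ => rfl⟩⟩
  simp

theorem Ram.add {ι : Type} {D₁ D₂ : ι → ι → ℝ} (h₁ : Ram D₁) (h₂ : Ram D₂) :
    Ram (fun i j => D₁ i j + D₂ i j) := by
  intro r
  obtain ⟨ν, hν, p, V, hV⟩ := h₁ r
  obtain ⟨κ, hκ, q, y, hy⟩ := h₂.fr (α := ν → Fin r)
  refine FR.of_space (κ := ν × κ)
    (H := WithLp 2 (EuclideanSpace ℝ (Fin p) × EuclideanSpace ℝ (Fin q)))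
    (fun x => WithLp.toLp 2 (V x.1, y x.2)) ?_
  intro c
  obtain ⟨g₂, hg₂, hc₂⟩ := hy (fun l v => c (v, l))
  rcases isEmpty_or_nonempty ι with hι | ⟨⟨i₀⟩⟩
  · exact ⟨fun i => hι.elim i, fun i => hι.elim i, fun i => hι.elim i⟩
  · obtain ⟨g₁, hg₁, hc₁⟩ := hV (fun v => c (v, g₂ i₀))
    refine ⟨fun i => (g₁ i, g₂ i), fun i j => ?_, fun i j => ?_⟩
    · rw [← WithLp.toLp_sub, WithLp.prod_norm_sq_eq_of_L2]
      change ‖V (g₁ i) - V (g₁ j)‖ ^ 2 + ‖y (g₂ i) - y (g₂ j)‖ ^ 2 = _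
      rw [hg₁ i j, hg₂ i j]
    · have h1 := congrFun (hc₂ i i₀) (g₁ i)
      have h2 := congrFun (hc₂ j i₀) (g₁ j)
      have h3 := hc₁ i j
      change c (g₁ i, g₂ i) = c (g₁ i, g₂ i₀) at h1
      change c (g₁ j, g₂ j) = c (g₁ j, g₂ i₀) at h2
      change c (g₁ i, g₂ i₀) = c (g₁ j, g₂ i₀) at h3
      change c (g₁ i, g₂ i) = c (g₁ j, g₂ j)
      rw [h1, h2, h3]

theorem Ram.sum {ι τ : Type} (s : Finset τ) (D : τ → ι → ι → ℝ) (h : ∀ t ∈ s, Ram (D t)) :
    Ram (fun i j => ∑ t ∈ s, D t i j) := by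
  classical
  induction s using Finset.induction_on with
  | empty => simpa using (Ram.zero : Ram (fun _ _ : ι => (0 : ℝ)))
  | insert a s ha ih =>
    have h1 := (h a (Finset.mem_insert_self a s)).add
      (ih (fun t ht => h t (Finset.mem_insert_of_mem ht)))
    have h2 : (fun i j => ∑ t ∈ insert a s, D t i j) =
        fun i j => D a i j + ∑ t ∈ s, D t i j := by
      funext i j
      rw [Finset.sum_insert ha]
    rw [h2]
    exact h1

/-- The vector with entries `a` placed at the positions `f`. -/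
noncomputable def spread {k n : ℕ} (a : Fin k → ℝ) (f : Fin k → Fin n) :
    EuclideanSpace ℝ (Fin n) :=
  ∑ l, EuclideanSpace.single (f l) (a l)

theorem inner_spread {k n : ℕ} (a : Fin k → ℝ) (f g : Fin k → Fin n) :
    inner ℝ (spread a f) (spread a g) =
      ∑ l, ∑ l', if f l = g l' then a l * a l' else 0 := by
  unfold spread
  rw [sum_inner]
  refine Finset.sum_congr rfl fun l _ => ?_
  rw [inner_sum]
  refine Finset.sum_congr rfl fun l' _ => ?_
  rw [EuclideanSpace.inner_single_left]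
  simp [Pi.single_apply]

theorem norm_spread_sub {k n m : ℕ} (a : Fin k → ℝ) (f g : Fin k → Fin m) (e : Fin m → Fin n)
    (he : Function.Injective e) :
    ‖spread a (fun l => e (f l)) - spread a (fun l => e (g l))‖ ^ 2 =
      ‖spread a f - spread a g‖ ^ 2 := by
  rw [norm_sub_sq_real, norm_sub_sq_real]
  simp only [← real_inner_self_eq_norm_sq, inner_spread, he.eq_iff]

/-- Families of spreads of a fixed sequence are Ramsey. -/
theorem ram_spread {ι : Type} {k m : ℕ} (a : Fin k → ℝ) (f : ι → (Fin k ↪o Fin m)) :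
    Ram (fun i j => ‖spread a (f i) - spread a (f j)‖ ^ 2) := by
  intro r
  rcases r with _ | r
  · refine ⟨Unit, inferInstance, 0, fun _ => 0, fun c => ?_⟩
    exact (c ()).elim0
  · obtain ⟨N, hN⟩ := ramsey k m r
    refine ⟨(Fin k ↪o Fin N), Fintype.ofFinite _, N, fun g => spread a g, fun c => ?_⟩
    obtain ⟨e, b, hb⟩ := hN c
    refine ⟨fun i => (f i).trans e, fun i j => ?_, fun i j => ?_⟩
    · exact norm_spread_sub a (f i) (f j) e e.injective
    · rw [hb, hb]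

end Pool.Agent.Lib.MP_d7e043_co
end

section

/-!
Simplices are Ramsey (Frankl–Rödl), in the form needed here.
-/

namespace Pool.Agent.Lib.MP_d7e043_co

open Finset

/-- Limits of Ramsey matrices. -/
def CRam {ι : Type} (D : ι → ι → ℝ) : Prop :=
  ∀ ε : ℝ, 0 < ε → ∃ E : ι → ι → ℝ, Ram E ∧ ∀ i j, |D i j - E i j| ≤ ε

theorem Ram.cram {ι : Type} {D : ι → ι → ℝ} (h : Ram D) : CRam D := by
  intro ε hε
  refine ⟨D, h, fun i j => ?_⟩
  rw [sub_self, abs_zero]
  exact hε.le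

theorem CRam.limit {ι : Type} {D : ι → ι → ℝ}
    (h : ∀ ε : ℝ, 0 < ε → ∃ E : ι → ι → ℝ, CRam E ∧ ∀ i j, |D i j - E i j| ≤ ε) : CRam D := by
  intro ε hε
  obtain ⟨E, hE, hDE⟩ := h (ε / 2) (by positivity)
  obtain ⟨F, hF, hEF⟩ := hE (ε / 2) (by positivity)
  refine ⟨F, hF, fun i j => ?_⟩
  have h1 := hDE i j
  have h2 := hEF i j
  have h3 : D i j - F i j = (D i j - E i j) + (E i j - F i j) := by ring
  rw [h3]
  exact (abs_add_le _ _).trans (by linarith)

theorem CRam.smul {ι : Type} {D : ι → ι → ℝ} (h : CRam D) {a : ℝ} (ha : 0 ≤ a) :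
    CRam (fun i j => a * D i j) := by
  intro ε hε
  obtain ⟨E, hE, hDE⟩ := h (ε / (a + 1)) (by positivity)
  refine ⟨fun i j => a * E i j, hE.smul ha, fun i j => ?_⟩
  rw [← mul_sub, abs_mul, abs_of_nonneg ha]
  calc a * |D i j - E i j| ≤ a * (ε / (a + 1)) := mul_le_mul_of_nonneg_left (hDE i j) ha
    _ ≤ (a + 1) * (ε / (a + 1)) := by
        apply mul_le_mul_of_nonneg_right (by linarith) (by positivity)
    _ = ε := by field_simp

theorem CRam.sum {ι τ : Type} (s : Finset τ) (D : τ → ι → ι → ℝ) (h : ∀ t ∈ s, CRam (D t)) :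
    CRam (fun i j => ∑ t ∈ s, D t i j) := by
  classical
  intro ε hε
  have h1 : ∀ t : τ, ∃ E : ι → ι → ℝ, t ∈ s → (Ram E ∧ ∀ i j, |D t i j - E i j| ≤ ε / (s.card + 1)) := by
    intro t
    by_cases ht : t ∈ s
    · obtain ⟨E, hE, hDE⟩ := h t ht (ε / (s.card + 1)) (by positivity)
      exact ⟨E, fun _ => ⟨hE, hDE⟩⟩
    · exact ⟨fun _ _ => 0, fun h => absurd h ht⟩
  choose E hE using h1
  refine ⟨fun i j => ∑ t ∈ s, E t i j, Ram.sum s E (fun t ht => (hE t ht).1), fun i j => ?_⟩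
  rw [← Finset.sum_sub_distrib]
  calc |∑ t ∈ s, (D t i j - E t i j)| ≤ ∑ t ∈ s, |D t i j - E t i j| := Finset.abs_sum_le_sum_abs _ _
    _ ≤ ∑ _t ∈ s, ε / (s.card + 1) := Finset.sum_le_sum (fun t ht => (hE t ht).2 i j)
    _ = s.card * (ε / (s.card + 1)) := by rw [Finset.sum_const, nsmul_eq_mul]
    _ ≤ (s.card + 1) * (ε / (s.card + 1)) := by
        apply mul_le_mul_of_nonneg_right (by linarith) (by positivity)
    _ = ε := by field_simp

theorem CRam.diag {ι : Type} {D : ι → ι → ℝ} (h : CRam D) (i : ι) : D i i = 0 := by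
  by_contra hne
  obtain ⟨E, hE, hDE⟩ := h (|D i i| / 2) (by positivity)
  have h1 := hDE i i
  rw [hE.diag i, sub_zero] at h1
  have h2 : 0 < |D i i| := abs_pos.2 hne
  linarith

theorem CRam.symm {ι : Type} {D : ι → ι → ℝ} (h : CRam D) (i j : ι) : D i j = D j i := by
  by_contra hne
  have h0 : 0 < |D i j - D j i| := abs_pos.2 (sub_ne_zero.2 hne)
  obtain ⟨E, hE, hDE⟩ := h (|D i j - D j i| / 3) (by positivity)
  have h1 := hDE i j
  have h2 := hDE j i
  rw [hE.symm j i] at h2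
  have h3 : D i j - D j i = (D i j - E i j) - (D j i - E i j) := by ring
  have h4 : |D i j - D j i| ≤ |D i j - E i j| + |D j i - E i j| := by
    rw [h3]; exact abs_sub _ _
  linarith

/-- The hat function of width `2 L`. -/
def hat (L : ℕ) (x : ℤ) : ℝ := max 0 ((L : ℝ) - |(x : ℝ) - L|)

theorem hat_lip (L : ℕ) (x y : ℤ) : |hat L x - hat L y| ≤ |(x : ℝ) - y| := by
  unfold hat
  have h1 := abs_max_sub_max_le_abs ((L : ℝ) - |(x : ℝ) - L|) ((L : ℝ) - |(y : ℝ) - L|) 0
  rw [max_comm _ (0 : ℝ), max_comm _ (0 : ℝ)] at h1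
  refine h1.trans ?_
  have h2 : ((L : ℝ) - |(x : ℝ) - L|) - ((L : ℝ) - |(y : ℝ) - L|) =
      |(y : ℝ) - L| - |(x : ℝ) - L| := by ring
  rw [h2]
  refine (abs_abs_sub_abs_le_abs_sub _ _).trans ?_
  rw [show ((y : ℝ) - L) - ((x : ℝ) - L) = -((x : ℝ) - y) by ring, abs_neg]

theorem hat_left {L : ℕ} {x : ℤ} (h0 : 0 ≤ x) (h1 : x ≤ L) : hat L x = x := by
  unfold hat
  have h0' : (0 : ℝ) ≤ x := by exact_mod_cast h0
  have h1' : (x : ℝ) ≤ L := by exact_mod_cast h1
  rw [abs_of_nonpos (by linarith)]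
  rw [max_eq_right (by linarith)]
  ring

theorem hat_right {L : ℕ} {x : ℤ} (h0 : (L : ℤ) ≤ x) (h1 : x ≤ 2 * L) :
    hat L x = 2 * L - x := by
  unfold hat
  have h0' : (L : ℝ) ≤ x := by exact_mod_cast h0
  have h1' : (x : ℝ) ≤ 2 * L := by exact_mod_cast h1
  rw [abs_of_nonneg (by linarith)]
  rw [max_eq_right (by linarith)]
  ring

theorem hat_out {L : ℕ} {x : ℤ} (h : x ≤ 0 ∨ (2 * L : ℤ) ≤ x) : hat L x = 0 := by
  unfold hat
  apply max_eq_left
  rcases h with h | h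
  · have h' : (x : ℝ) ≤ 0 := by exact_mod_cast h
    have hL : (0 : ℝ) ≤ L := Nat.cast_nonneg L
    rw [abs_of_nonpos (by linarith)]
    linarith
  · have h' : (2 * L : ℝ) ≤ x := by exact_mod_cast h
    have hL : (0 : ℝ) ≤ L := Nat.cast_nonneg L
    rw [abs_of_nonneg (by linarith)]
    linarith

/-- The shift by `t`, as an order embedding. -/
def shiftEmb (k T : ℕ) (t : ℕ) (ht : t ≤ T) : Fin k ↪o Fin (k + T) :=
  OrderEmbedding.ofStrictMono (fun l => ⟨l + t, by have := l.2; omega⟩) (by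
    intro a b hab
    simpa using hab)

theorem spread_shift (L T t : ℕ) (ht : t ≤ T) (n : Fin (2 * L + 1 + T)) :
    spread (fun l : Fin (2 * L + 1) => hat L (l : ℤ)) (shiftEmb (2 * L + 1) T t ht) n =
      hat L ((n : ℤ) - t) := by
  unfold spread
  have h1 : (∑ l : Fin (2 * L + 1), EuclideanSpace.single (shiftEmb (2 * L + 1) T t ht l)
      (hat L (l : ℤ))) n =
      ∑ l : Fin (2 * L + 1), (if (n : ℕ) = l + t then hat L (l : ℤ) else 0) := by
    rw [WithLp.ofLp_sum, Finset.sum_apply]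
    refine Finset.sum_congr rfl fun l _ => ?_
    rw [PiLp.single_apply]
    have : (n = shiftEmb (2 * L + 1) T t ht l) ↔ (n : ℕ) = l + t := by
      rw [Fin.ext_iff]
      rfl
    simp only [this]
  rw [h1]
  by_cases h : t ≤ (n : ℕ) ∧ (n : ℕ) - t < 2 * L + 1
  · rw [Finset.sum_eq_single (⟨(n : ℕ) - t, h.2⟩ : Fin (2 * L + 1))]
    · rw [if_pos (by simp; omega)]
      congr 1
      simp
      omega
    · intro b _ hb
      rw [if_neg]
      intro h2
      apply hb
      rw [Fin.ext_iff]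
      simp
      omega
    · intro h2
      exact absurd (Finset.mem_univ _) h2
  · rw [Finset.sum_eq_zero]
    · rw [hat_out]
      by_cases h3 : t ≤ (n : ℕ)
      · right
        have : ¬ ((n : ℕ) - t < 2 * L + 1) := fun h4 => h ⟨h3, h4⟩
        omega
      · left
        omega
    · intro b _
      rw [if_neg]
      intro h2
      apply h
      have := b.2
      omega

theorem norm_shift_sub (L T t u : ℕ) (ht : t ≤ T) (hu : u ≤ T) :
    ‖spread (fun l : Fin (2 * L + 1) => hat L (l : ℤ)) (shiftEmb (2 * L + 1) T t ht) -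
      spread (fun l : Fin (2 * L + 1) => hat L (l : ℤ)) (shiftEmb (2 * L + 1) T u hu)‖ ^ 2 =
    ∑ n ∈ Finset.range (2 * L + 1 + T), (hat L ((n : ℤ) - t) - hat L ((n : ℤ) - u)) ^ 2 := by
  rw [EuclideanSpace.real_norm_sq_eq,
    ← Fin.sum_univ_eq_sum_range (fun n => (hat L ((n : ℤ) - t) - hat L ((n : ℤ) - u)) ^ 2)]
  refine Finset.sum_congr rfl fun n _ => ?_
  rw [PiLp.sub_apply, spread_shift, spread_shift]

theorem hat_sum_le (L T t u : ℕ) :
    ∑ n ∈ Finset.range (2 * L + 1 + T), (hat L ((n : ℤ) - t) - hat L ((n : ℤ) - u)) ^ 2 ≤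
      (2 * L + 1 + T) * ((t : ℝ) - u) ^ 2 := by
  calc ∑ n ∈ Finset.range (2 * L + 1 + T), (hat L ((n : ℤ) - t) - hat L ((n : ℤ) - u)) ^ 2
      ≤ ∑ _n ∈ Finset.range (2 * L + 1 + T), ((t : ℝ) - u) ^ 2 := by
        refine Finset.sum_le_sum fun n _ => ?_
        have h1 := hat_lip L ((n : ℤ) - t) ((n : ℤ) - u)
        rw [← sq_abs, ← sq_abs ((t : ℝ) - u)]
        have h2 : |(((n : ℤ) - t : ℤ) : ℝ) - (((n : ℤ) - u : ℤ) : ℝ)| = |(t : ℝ) - u| := by
          push_cast
          rw [← abs_neg]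
          congr 1
          ring
        rw [h2] at h1
        exact pow_le_pow_left₀ (abs_nonneg _) h1 2
    _ = (2 * L + 1 + T) * ((t : ℝ) - u) ^ 2 := by
        rw [Finset.sum_const, Finset.card_range, nsmul_eq_mul]
        push_cast
        ring

theorem le_hat_sum_aux (L T t u : ℕ) (htu : t ≤ u) (hu : u ≤ T) :
    2 * ((L : ℝ) - ((u : ℝ) - t)) * ((u : ℝ) - t) ^ 2 ≤
    ∑ n ∈ Finset.range (2 * L + 1 + T), (hat L ((n : ℤ) - t) - hat L ((n : ℤ) - u)) ^ 2 := by
  have hdisj : Disjoint (Finset.Ico u (t + L)) (Finset.Ico (u + L) (t + 2 * L)) := by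
    rw [Finset.disjoint_left]
    intro n h1 h2
    rw [Finset.mem_Ico] at h1 h2
    omega
  have hsub : Finset.Ico u (t + L) ∪ Finset.Ico (u + L) (t + 2 * L) ⊆
      Finset.range (2 * L + 1 + T) := by
    intro n hn
    rw [Finset.mem_union, Finset.mem_Ico, Finset.mem_Ico] at hn
    rw [Finset.mem_range]
    omega
  have htu' : (t : ℝ) ≤ u := by exact_mod_cast htu
  have hcard1 : ((L : ℝ) - ((u : ℝ) - t)) ≤ ((Finset.Ico u (t + L)).card : ℝ) := by
    rw [Nat.card_Ico]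
    have : (L : ℝ) + t ≤ ((t + L - u : ℕ) : ℝ) + u := by
      have h : L + t ≤ (t + L - u) + u := by omega
      exact_mod_cast h
    linarith
  have hcard2 : ((L : ℝ) - ((u : ℝ) - t)) ≤ ((Finset.Ico (u + L) (t + 2 * L)).card : ℝ) := by
    rw [Nat.card_Ico]
    have : (L : ℝ) + t ≤ ((t + 2 * L - (u + L) : ℕ) : ℝ) + u := by
      have h : L + t ≤ (t + 2 * L - (u + L)) + u := by omega
      exact_mod_cast h
    linarith
  have hsq : 0 ≤ ((u : ℝ) - t) ^ 2 := sq_nonneg _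
  calc 2 * ((L : ℝ) - ((u : ℝ) - t)) * ((u : ℝ) - t) ^ 2
      ≤ (((Finset.Ico u (t + L)).card : ℝ) + ((Finset.Ico (u + L) (t + 2 * L)).card : ℝ)) *
          ((u : ℝ) - t) ^ 2 := by
        apply mul_le_mul_of_nonneg_right _ hsq
        linarith
    _ = ∑ _n ∈ Finset.Ico u (t + L) ∪ Finset.Ico (u + L) (t + 2 * L), ((u : ℝ) - t) ^ 2 := by
        rw [Finset.sum_const, Finset.card_union_of_disjoint hdisj, nsmul_eq_mul]
        push_cast
        ring
    _ = ∑ n ∈ Finset.Ico u (t + L) ∪ Finset.Ico (u + L) (t + 2 * L),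
          (hat L ((n : ℤ) - t) - hat L ((n : ℤ) - u)) ^ 2 := by
        refine Finset.sum_congr rfl fun n hn => ?_
        rw [Finset.mem_union, Finset.mem_Ico, Finset.mem_Ico] at hn
        rcases hn with hn | hn
        · rw [hat_left (by omega) (by omega), hat_left (by omega) (by omega)]
          push_cast
          ring
        · rw [hat_right (by omega) (by omega), hat_right (by omega) (by omega)]
          push_cast
          ring
    _ ≤ ∑ n ∈ Finset.range (2 * L + 1 + T),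
          (hat L ((n : ℤ) - t) - hat L ((n : ℤ) - u)) ^ 2 :=
        Finset.sum_le_sum_of_subset_of_nonneg hsub (fun _ _ _ => sq_nonneg _)

theorem hat_sum_close (L T t u : ℕ) (ht : t ≤ T) (hu : u ≤ T) :
    |∑ n ∈ Finset.range (2 * L + 1 + T), (hat L ((n : ℤ) - t) - hat L ((n : ℤ) - u)) ^ 2 -
      2 * L * ((t : ℝ) - u) ^ 2| ≤ 2 * (T : ℝ) ^ 3 + (1 + T) * (T : ℝ) ^ 2 := by
  have hT : (0 : ℝ) ≤ T := Nat.cast_nonneg T
  have ht' : (t : ℝ) ≤ T := by exact_mod_cast ht
  have hu' : (u : ℝ) ≤ T := by exact_mod_cast hu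
  have ht0 : (0 : ℝ) ≤ t := Nat.cast_nonneg t
  have hu0 : (0 : ℝ) ≤ u := Nat.cast_nonneg u
  have habs : |(t : ℝ) - u| ≤ T := by
    rw [abs_le]; constructor <;> linarith
  have hsq : ((t : ℝ) - u) ^ 2 ≤ (T : ℝ) ^ 2 := by
    rw [← sq_abs]
    exact pow_le_pow_left₀ (abs_nonneg _) habs 2
  have hup := hat_sum_le L T t u
  have hlow : 2 * ((L : ℝ) - |(t : ℝ) - u|) * ((t : ℝ) - u) ^ 2 ≤
      ∑ n ∈ Finset.range (2 * L + 1 + T), (hat L ((n : ℤ) - t) - hat L ((n : ℤ) - u)) ^ 2 := by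
    rcases le_total t u with h | h
    · have h1 := le_hat_sum_aux L T t u h hu
      have h2 : (t : ℝ) ≤ u := by exact_mod_cast h
      rw [abs_of_nonpos (by linarith)]
      have h3 : -((t : ℝ) - u) = (u : ℝ) - t := by ring
      have h4 : ((t : ℝ) - u) ^ 2 = ((u : ℝ) - t) ^ 2 := by ring
      rw [h3, h4]
      exact h1
    · have h1 := le_hat_sum_aux L T u t h ht
      have h2 : (u : ℝ) ≤ t := by exact_mod_cast h
      rw [abs_of_nonneg (by linarith)]
      refine h1.trans (le_of_eq ?_)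
      refine Finset.sum_congr rfl fun n _ => ?_
      ring
  have hcube : |(t : ℝ) - u| * ((t : ℝ) - u) ^ 2 ≤ (T : ℝ) ^ 3 := by
    calc |(t : ℝ) - u| * ((t : ℝ) - u) ^ 2 ≤ T * (T : ℝ) ^ 2 :=
          mul_le_mul habs hsq (sq_nonneg _) hT
      _ = (T : ℝ) ^ 3 := by ring
  rw [abs_le]
  constructor
  · have h5 : 0 ≤ (1 + (T : ℝ)) * (T : ℝ) ^ 2 := by positivity
    nlinarith [hlow, hcube, h5]
  · have h5 : 0 ≤ 2 * (T : ℝ) ^ 3 := by positivity
    have h6 : (1 + (T : ℝ)) * ((t : ℝ) - u) ^ 2 ≤ (1 + T) * (T : ℝ) ^ 2 :=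
      mul_le_mul_of_nonneg_left hsq (by linarith)
    nlinarith [hup, h5, h6]

theorem cram_nat {ι : Type} (T : ℕ) (t : ι → ℕ) (ht : ∀ i, t i ≤ T) :
    CRam (fun i j => ((t i : ℝ) - t j) ^ 2) := by
  intro ε hε
  obtain ⟨C, hC⟩ : ∃ C : ℝ, C = 2 * (T : ℝ) ^ 3 + (1 + T) * (T : ℝ) ^ 2 := ⟨_, rfl⟩
  have hC0 : 0 ≤ C := by rw [hC]; positivity
  obtain ⟨L, hL⟩ := exists_nat_gt (C / ε)
  have hL0 : (0 : ℝ) < L := lt_of_le_of_lt (by positivity) hL
  refine ⟨fun i j => (1 / (2 * (L : ℝ))) *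
    ‖spread (fun l : Fin (2 * L + 1) => hat L (l : ℤ)) (shiftEmb (2 * L + 1) T (t i) (ht i)) -
      spread (fun l : Fin (2 * L + 1) => hat L (l : ℤ)) (shiftEmb (2 * L + 1) T (t j) (ht j))‖ ^ 2,
    (ram_spread (fun l : Fin (2 * L + 1) => hat L (l : ℤ))
      (fun i => shiftEmb (2 * L + 1) T (t i) (ht i))).smul (by positivity), fun i j => ?_⟩
  have h1 := hat_sum_close L T (t i) (t j) (ht i) (ht j)
  rw [← norm_shift_sub L T (t i) (t j) (ht i) (ht j), ← hC] at h1
  have h2 : ((t i : ℝ) - t j) ^ 2 - (1 / (2 * (L : ℝ))) *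
      ‖spread (fun l : Fin (2 * L + 1) => hat L (l : ℤ)) (shiftEmb (2 * L + 1) T (t i) (ht i)) -
      spread (fun l : Fin (2 * L + 1) => hat L (l : ℤ)) (shiftEmb (2 * L + 1) T (t j) (ht j))‖ ^ 2 =
      (-(1 / (2 * (L : ℝ)))) * (‖spread (fun l : Fin (2 * L + 1) => hat L (l : ℤ))
        (shiftEmb (2 * L + 1) T (t i) (ht i)) -
      spread (fun l : Fin (2 * L + 1) => hat L (l : ℤ)) (shiftEmb (2 * L + 1) T (t j) (ht j))‖ ^ 2
        - 2 * L * ((t i : ℝ) - t j) ^ 2) := by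
    field_simp
    ring
  rw [h2, abs_mul, abs_neg, abs_of_nonneg (by positivity : (0 : ℝ) ≤ 1 / (2 * (L : ℝ)))]
  calc 1 / (2 * (L : ℝ)) * _ ≤ 1 / (2 * (L : ℝ)) * C :=
        mul_le_mul_of_nonneg_left h1 (by positivity)
    _ ≤ ε := by
        rw [div_lt_iff₀ hε] at hL
        rw [one_div, inv_mul_le_iff₀ (by positivity)]
        nlinarith

theorem cram_real {ι : Type} (B : ℝ) (s : ι → ℝ) (hs : ∀ i, |s i| ≤ B) (hB : 0 ≤ B) :
    CRam (fun i j => (s i - s j) ^ 2) := by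
  apply CRam.limit
  intro ε hε
  obtain ⟨q, hq⟩ := exists_nat_gt ((4 * B + 1) / ε)
  have hq0 : (0 : ℝ) < q := lt_of_le_of_lt (by positivity) hq
  have hq1 : (1 : ℝ) ≤ q := by
    have : q ≠ 0 := by rintro rfl; simp at hq0
    exact_mod_cast Nat.one_le_iff_ne_zero.2 this
  obtain ⟨t, ht⟩ : ∃ t : ι → ℕ, ∀ i, t i = ⌊(q : ℝ) * (s i + B)⌋₊ := ⟨_, fun _ => rfl⟩
  have hsB : ∀ i, 0 ≤ s i + B ∧ s i + B ≤ 2 * B := by
    intro i
    have := abs_le.1 (hs i)
    constructor <;> linarith [this.1, this.2]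
  have htT : ∀ i, t i ≤ ⌊(q : ℝ) * (2 * B)⌋₊ := by
    intro i
    rw [ht i]
    apply Nat.floor_le_floor
    exact mul_le_mul_of_nonneg_left (hsB i).2 hq0.le
  have hfl : ∀ i, (t i : ℝ) ≤ q * (s i + B) ∧ q * (s i + B) < t i + 1 := by
    intro i
    rw [ht i]
    exact ⟨Nat.floor_le (mul_nonneg hq0.le (hsB i).1), Nat.lt_floor_add_one _⟩
  refine ⟨fun i j => (1 / (q : ℝ) ^ 2) * ((t i : ℝ) - t j) ^ 2,
    (cram_nat _ t htT).smul (by positivity), fun i j => ?_⟩
  obtain ⟨y, hy⟩ : ∃ y : ℝ, y = ((t i : ℝ) - t j) / q := ⟨_, rfl⟩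
  have h1 : (1 / (q : ℝ) ^ 2) * ((t i : ℝ) - t j) ^ 2 = y ^ 2 := by
    rw [hy, div_pow]; ring
  have h2 : |(s i - s j) - y| ≤ 1 / q := by
    have h3 : (s i - s j) - y = (1 / (q : ℝ)) * ((q * (s i + B) - t i) - (q * (s j + B) - t j)) := by
      rw [hy]
      field_simp
      ring
    rw [h3, abs_mul, abs_of_nonneg (by positivity : (0 : ℝ) ≤ 1 / q)]
    have h4 : |(q * (s i + B) - t i) - (q * (s j + B) - t j)| ≤ 1 := by
      have hi := hfl i
      have hj := hfl j
      rw [abs_le]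
      constructor <;> linarith [hi.1, hi.2, hj.1, hj.2]
    calc 1 / (q : ℝ) * _ ≤ 1 / q * 1 := mul_le_mul_of_nonneg_left h4 (by positivity)
      _ = 1 / q := mul_one _
  have h5 : |s i - s j| ≤ 2 * B := by
    have hi := abs_le.1 (hs i)
    have hj := abs_le.1 (hs j)
    rw [abs_le]
    constructor <;> linarith [hi.1, hi.2, hj.1, hj.2]
  have h1q : 1 / (q : ℝ) ≤ 1 := by
    rw [div_le_one hq0]; exact hq1
  have h6 : |(s i - s j) + y| ≤ 4 * B + 1 := by
    have h7 : (s i - s j) + y = 2 * (s i - s j) - ((s i - s j) - y) := by ring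
    rw [h7]
    refine (abs_sub _ _).trans ?_
    rw [abs_mul, abs_two]
    linarith
  change |(s i - s j) ^ 2 - 1 / (q : ℝ) ^ 2 * ((t i : ℝ) - t j) ^ 2| ≤ ε
  rw [h1]
  have h8 : (s i - s j) ^ 2 - y ^ 2 = ((s i - s j) - y) * ((s i - s j) + y) := by ring
  rw [h8, abs_mul]
  calc |s i - s j - y| * |s i - s j + y| ≤ (1 / q) * (4 * B + 1) :=
        mul_le_mul h2 h6 (abs_nonneg _) (by positivity)
    _ ≤ ε := by
        rw [div_lt_iff₀ hε] at hq
        rw [one_div, inv_mul_le_iff₀ hq0]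
        linarith

/-- Squared Euclidean distance matrices are limits of Ramsey ones. -/
theorem cram_euclid {ι : Type} [Finite ι] {n : ℕ} (z : ι → EuclideanSpace ℝ (Fin n)) :
    CRam (fun i j => ‖z i - z j‖ ^ 2) := by
  have h1 : (fun i j => ‖z i - z j‖ ^ 2) =
      fun i j => ∑ c ∈ (Finset.univ : Finset (Fin n)), (z i c - z j c) ^ 2 := by
    funext i j
    rw [EuclideanSpace.real_norm_sq_eq]
    rfl
  rw [h1]
  apply CRam.sum Finset.univ (fun (c : Fin n) (i j : ι) => (z i c - z j c) ^ 2)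
  intro c _
  cases nonempty_fintype ι
  refine cram_real (∑ i, |z i c|) (fun i => z i c) (fun i => ?_) ?_
  · exact Finset.single_le_sum (f := fun i => |z i c|) (fun j _ => abs_nonneg _) (Finset.mem_univ i)
  · exact Finset.sum_nonneg (fun j _ => abs_nonneg _)

/-- One-point order embedding. -/
def oneEmb {m : ℕ} (a : Fin m) : Fin 1 ↪o Fin m :=
  OrderEmbedding.ofStrictMono (fun _ => a) (by
    intro x y hxy
    exact absurd hxy (by rw [Subsingleton.elim x y]; exact lt_irrefl _))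

theorem oneEmb_apply {m : ℕ} (a : Fin m) (x : Fin 1) : oneEmb a x = a := rfl

/-- The regular simplex is Ramsey. -/
theorem ram_regular (ι : Type) [Finite ι] [DecidableEq ι] :
    Ram (fun i j : ι => if i = j then (0 : ℝ) else 1) := by
  obtain ⟨m, ⟨e⟩⟩ := Finite.exists_equiv_fin ι
  have h1 := (ram_spread (k := 1) (m := m) (fun _ => (1 : ℝ))
    (fun i : ι => oneEmb (e i))).smul (a := 1 / 2) (by norm_num)
  convert h1 using 3 with i j
  rw [norm_sub_sq_real, ← real_inner_self_eq_norm_sq, ← real_inner_self_eq_norm_sq,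
    inner_spread, inner_spread, inner_spread]
  simp only [Finset.univ_unique, Finset.sum_singleton, oneEmb_apply,
    if_true, e.injective.eq_iff, mul_one]
  by_cases h : i = j
  · simp only [h, if_true]
    norm_num
  · simp only [h, if_false]
    norm_num

/-- Frankl–Rödl in the form needed: adding a multiple of the regular simplex to a limit of
Ramsey matrices gives a Ramsey matrix. -/
theorem CRam.ram_add {ι : Type} [Finite ι] [DecidableEq ι] {D : ι → ι → ℝ} (hD : CRam D) {h : ℝ}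
    (hh : 0 < h) : Ram (fun i j => D i j + if i = j then 0 else h) := by
  cases nonempty_fintype ι
  obtain ⟨m, hm⟩ : ∃ m : ℝ, m = ((Finset.univ : Finset (ι × ι)).card : ℝ) := ⟨_, rfl⟩
  have hm0 : 0 ≤ m := by rw [hm]; positivity
  obtain ⟨ε, hε⟩ : ∃ ε : ℝ, ε = h / (m + 1) := ⟨_, rfl⟩
  have hε0 : 0 < ε := by rw [hε]; positivity
  have hmε : m * ε ≤ h := by
    rw [hε]
    calc m * (h / (m + 1)) ≤ (m + 1) * (h / (m + 1)) :=
          mul_le_mul_of_nonneg_right (by linarith) (by positivity)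
      _ = h := by field_simp
  obtain ⟨E, hE, hDE⟩ := hD ε hε0
  -- the remainder
  obtain ⟨R, hR⟩ : ∃ R : ι → ι → ℝ, ∀ i j, R i j = D i j - E i j := ⟨_, fun _ _ => rfl⟩
  have hRs : ∀ i j, R i j = R j i := by
    intro i j
    rw [hR, hR, hD.symm i j, hE.symm i j]
  have hRd : ∀ i, R i i = 0 := by
    intro i
    rw [hR, hD.diag i, hE.diag i, sub_zero]
  have hRε : ∀ i j, |R i j| ≤ ε := by
    intro i j
    rw [hR]
    exact hDE i j
  -- coefficients
  obtain ⟨c, hc⟩ : ∃ c : ι × ι → ℝ, ∀ p, c p = if p.1 = p.2 then 0 else (ε - R p.1 p.2) / 2 :=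
    ⟨_, fun _ => rfl⟩
  have hc0 : ∀ p, 0 ≤ c p := by
    intro p
    rw [hc]
    split_ifs
    · exact le_refl _
    · have := (abs_le.1 (hRε p.1 p.2)).2
      linarith
  have hcε : ∀ p, c p ≤ ε := by
    intro p
    rw [hc]
    split_ifs
    · exact hε0.le
    · have := (abs_le.1 (hRε p.1 p.2)).1
      linarith
  have hS : ∑ p, c p ≤ h := by
    calc ∑ p, c p ≤ ∑ _p : ι × ι, ε := Finset.sum_le_sum (fun p _ => hcε p)
      _ = m * ε := by rw [Finset.sum_const, nsmul_eq_mul, hm]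
      _ ≤ h := hmε
  have hreg := ram_regular ι
  have hmerge : ∀ p : ι × ι, Ram (fun i j => c p *
      (if (if i = p.2 then p.1 else i) = (if j = p.2 then p.1 else j) then (0 : ℝ) else 1)) :=
    fun p => (hreg.comp (fun i => if i = p.2 then p.1 else i)).smul (hc0 p)
  have hsum := Ram.sum (Finset.univ : Finset (ι × ι)) _ (fun p _ => hmerge p)
  have hfin := (hE.add hsum).add (hreg.smul (a := h + ε - ∑ p, c p) (by linarith))
  convert hfin using 3 with i j
  by_cases hij : i = j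
  · subst hij
    simp only [if_true, mul_zero, Finset.sum_const_zero, add_zero]
    have := hRd i
    rw [hR] at this
    linarith
  · rw [if_neg hij, if_neg hij]
    have hkey : ∀ p : ι × ι, c p *
        (if (if i = p.2 then p.1 else i) = (if j = p.2 then p.1 else j) then (0 : ℝ) else 1) =
        c p - (if p = (i, j) then c (i, j) else 0) - (if p = (j, i) then c (j, i) else 0) := by
      rintro ⟨a, b⟩
      by_cases hab : a = b
      · subst hab
        have h0 : c (a, a) = 0 := by rw [hc]; simp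
        have h1 : ((a, a) : ι × ι) ≠ (i, j) := by
          intro h; rw [Prod.mk.injEq] at h; exact hij (h.1.symm.trans h.2)
        have h2 : ((a, a) : ι × ι) ≠ (j, i) := by
          intro h; rw [Prod.mk.injEq] at h; exact hij (h.2.symm.trans h.1)
        rw [if_neg h1, if_neg h2, h0]
        ring
      · by_cases h1 : ((a, b) : ι × ι) = (i, j)
        · rw [Prod.mk.injEq] at h1
          obtain ⟨rfl, rfl⟩ := h1
          have h2 : ((a, b) : ι × ι) ≠ (b, a) := by
            intro h; rw [Prod.mk.injEq] at h; exact hij h.1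
          rw [if_neg h2]
          simp [hab]
        · by_cases h2 : ((a, b) : ι × ι) = (j, i)
          · rw [Prod.mk.injEq] at h2
            obtain ⟨rfl, rfl⟩ := h2
            rw [if_neg h1]
            simp [hab]
          · rw [if_neg h1, if_neg h2]
            have h3 : ¬ ((if i = b then a else i) = (if j = b then a else j)) := by
              intro h
              by_cases h4 : i = b
              · rw [if_pos h4] at h
                by_cases h5 : j = b
                · exact hij (h4.trans h5.symm)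
                · rw [if_neg h5] at h
                  exact h2 (by rw [h, h4])
              · rw [if_neg h4] at h
                by_cases h5 : j = b
                · rw [if_pos h5] at h
                  exact h1 (by rw [h, h5])
                · rw [if_neg h5] at h
                  exact hij h
            rw [if_neg h3]
            ring
    simp only [hkey]
    rw [Finset.sum_sub_distrib, Finset.sum_sub_distrib, Finset.sum_ite_eq', Finset.sum_ite_eq']
    simp only [Finset.mem_univ, if_true]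
    rw [hc (i, j), hc (j, i)]
    simp only [if_neg hij, if_neg (Ne.symm hij)]
    have h1 := hRs i j
    have h2 := hR i j
    rw [← h1]
    rw [h2]
    ring

end Pool.Agent.Lib.MP_d7e043_co
end

section

/-!
The main step: adding one point off the hyperplane.
-/

namespace Pool.Agent.Lib.MP_d7e043_co

open Finset

/-- Isometry extension: a distance preserving correspondence `w i ↦ y i` extends to a distance
preserving map into a bigger space. -/
theorem exists_extension {κ : Type} [Finite κ] {A B : Type}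
    [NormedAddCommGroup A] [InnerProductSpace ℝ A] [FiniteDimensional ℝ A]
    [NormedAddCommGroup B] [InnerProductSpace ℝ B]
    (w : κ → A) (y : κ → B) (h : ∀ i j, ‖y i - y j‖ ^ 2 = ‖w i - w j‖ ^ 2) :
    ∃ φ : A → WithLp 2 (B × A), (∀ u v, ‖φ u - φ v‖ ^ 2 = ‖u - v‖ ^ 2) ∧
      ∀ i, φ (w i) = WithLp.toLp 2 (y i, 0) := by
  classical
  cases nonempty_fintype κ
  rcases isEmpty_or_nonempty κ with hκ | ⟨⟨i₀⟩⟩
  · refine ⟨fun u => WithLp.toLp 2 (0, u), fun u v => ?_, fun i => hκ.elim i⟩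
    rw [← WithLp.toLp_sub, WithLp.prod_norm_sq_eq_of_L2]
    simp
  -- linear maps
  let P : (κ → ℝ) →ₗ[ℝ] A := Fintype.linearCombination ℝ (fun i => w i - w i₀)
  let Q : (κ → ℝ) →ₗ[ℝ] B := Fintype.linearCombination ℝ (fun i => y i - y i₀)
  have hinner : ∀ i j, inner ℝ (w i - w i₀) (w j - w i₀) = inner ℝ (y i - y i₀) (y j - y i₀) := by
    intro i j
    have h1 := norm_sub_sq_real (w i - w i₀) (w j - w i₀)
    have h2 := norm_sub_sq_real (y i - y i₀) (y j - y i₀)
    rw [sub_sub_sub_cancel_right] at h1 h2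
    rw [h i j, h i i₀, h j i₀] at h2
    linarith
  have hPQ : ∀ a, ‖P a‖ = ‖Q a‖ := by
    intro a
    have h3 : ‖P a‖ ^ 2 = ‖Q a‖ ^ 2 := by
      rw [← real_inner_self_eq_norm_sq, ← real_inner_self_eq_norm_sq]
      simp only [P, Q, Fintype.linearCombination_apply, sum_inner, inner_sum, inner_smul_left,
        inner_smul_right, hinner]
    have h4 := abs_eq_abs.2 (Or.inl (rfl : ‖P a‖ = ‖P a‖))
    exact (sq_eq_sq₀ (norm_nonneg _) (norm_nonneg _)).1 h3
  obtain ⟨s, hs⟩ := LinearMap.exists_rightInverse_of_surjective P.rangeRestrict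
    (LinearMap.range_eq_top.2 P.surjective_rangeRestrict)
  have hs' : ∀ v : LinearMap.range P, P (s v) = v := by
    intro v
    have := LinearMap.congr_fun hs v
    exact congrArg Subtype.val this
  let ℓ : LinearMap.range P →ₗ[ℝ] B := Q.comp s
  have hℓ : ∀ v : LinearMap.range P, ‖ℓ v‖ = ‖v‖ := by
    intro v
    change ‖Q (s v)‖ = ‖v‖
    rw [← hPQ, hs']
    rfl
  have hℓP : ∀ i, ∀ v : LinearMap.range P, (v : A) = w i - w i₀ → ℓ v = y i - y i₀ := by
    intro i v hv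
    have h5 : P (Pi.single i 1) = w i - w i₀ := by
      simp [P, Fintype.linearCombination_apply_single]
    have h6 : Q (Pi.single i 1) = y i - y i₀ := by
      simp [Q, Fintype.linearCombination_apply_single]
    have h7 : ‖Q (s v - Pi.single i 1)‖ = 0 := by
      rw [← hPQ, map_sub, hs', h5, hv, sub_self, norm_zero]
    rw [norm_eq_zero, map_sub, sub_eq_zero, h6] at h7
    exact h7
  let K : Submodule ℝ A := LinearMap.range P
  refine ⟨fun u => WithLp.toLp 2 (y i₀ + ℓ (K.orthogonalProjectionOnto (u - w i₀)),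
    ((Kᗮ).orthogonalProjectionOnto (u - w i₀) : A)), fun u v => ?_, fun i => ?_⟩
  · rw [← WithLp.toLp_sub, WithLp.prod_norm_sq_eq_of_L2]
    change ‖(y i₀ + ℓ (K.orthogonalProjectionOnto (u - w i₀))) -
        (y i₀ + ℓ (K.orthogonalProjectionOnto (v - w i₀)))‖ ^ 2 +
      ‖((Kᗮ).orthogonalProjectionOnto (u - w i₀) : A) -
        ((Kᗮ).orthogonalProjectionOnto (v - w i₀) : A)‖ ^ 2 = _
    rw [add_sub_add_left_eq_sub, ← map_sub, ← map_sub, sub_sub_sub_cancel_right,
      ← Submodule.coe_sub, ← map_sub, sub_sub_sub_cancel_right, hℓ,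
      K.norm_sq_eq_add_norm_sq_projection (u - v)]
    rfl
  · have hmem : w i - w i₀ ∈ K := by
      refine ⟨Pi.single i 1, ?_⟩
      simp [P, Fintype.linearCombination_apply_single]
    have h11 : K.orthogonalProjectionOnto (w i - w i₀) = ⟨w i - w i₀, hmem⟩ :=
      Submodule.orthogonalProjectionOnto_mem_subspace_eq_self (K := K) ⟨w i - w i₀, hmem⟩
    have h12 : (Kᗮ).orthogonalProjectionOnto (w i - w i₀) = 0 :=
      Submodule.orthogonalProjectionOnto_orthogonal_apply_eq_zero hmem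
    have h13 : ℓ ⟨w i - w i₀, hmem⟩ = y i - y i₀ := hℓP i ⟨w i - w i₀, hmem⟩ rfl
    beta_reduce
    rw [h11, h12, h13, add_sub_cancel]
    rfl

/-- Squared distance matrix of the family `x` in a hyperplane together with a point whose foot
is `p` and whose squared height is `s`. -/
noncomputable def extD {ι : Type} {d : ℕ} (x : ι → EuclideanSpace ℝ (Fin d))
    (p : EuclideanSpace ℝ (Fin d)) (s : ℝ) : Option ι → Option ι → ℝ
  | some i, some j => ‖x i - x j‖ ^ 2
  | some i, none => ‖x i - p‖ ^ 2 + s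
  | none, some j => ‖x j - p‖ ^ 2 + s
  | none, none => 0

theorem toLp_sub_norm {A B : Type} [NormedAddCommGroup A] [NormedAddCommGroup B]
    (a a' : A) (b b' : B) :
    ‖(WithLp.toLp 2 (a, b) : WithLp 2 (A × B)) - WithLp.toLp 2 (a', b')‖ ^ 2 =
      ‖a - a'‖ ^ 2 + ‖b - b'‖ ^ 2 := by
  rw [← WithLp.toLp_sub, WithLp.prod_norm_sq_eq_of_L2]
  rfl

theorem main_step {ι : Type} [Finite ι] {d : ℕ} (x : ι → EuclideanSpace ℝ (Fin d))
    (hx : Ram (fun i j => ‖x i - x j‖ ^ 2)) (p : EuclideanSpace ℝ (Fin d)) {s : ℝ} (hs : 0 < s)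
    (k : ℕ) : FR (Fin k) (extD x p s) := by
  classical
  induction k with
  | zero => exact ⟨Unit, inferInstance, 0, fun _ => 0, fun c => (c ()).elim0⟩
  | succ k ih =>
    obtain ⟨κ, hκ, N, z, hz⟩ := ih
    have hne : Nonempty κ := by
      by_contra h
      rw [not_nonempty_iff] at h
      obtain ⟨g, -, -⟩ := hz (fun a => h.elim a)
      exact h.elim (g none)
    obtain ⟨ζ₀⟩ := hne
    -- the simplex
    have hW : Ram (fun ζ ζ' => ‖z ζ - z ζ'‖ ^ 2 + if ζ = ζ' then 0 else 2 * s) :=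
      (cram_euclid z).ram_add (by positivity)
    let w : κ → WithLp 2 (EuclideanSpace ℝ (Fin N) × EuclideanSpace ℝ κ) :=
      fun ζ => WithLp.toLp 2 (z ζ, Real.sqrt s • EuclideanSpace.single ζ (1 : ℝ))
    have hsq : Real.sqrt s ^ 2 = s := Real.sq_sqrt hs.le
    have hw : ∀ ζ ζ', ‖w ζ - w ζ'‖ ^ 2 = ‖z ζ - z ζ'‖ ^ 2 + if ζ = ζ' then 0 else 2 * s := by
      intro ζ ζ'
      change ‖(WithLp.toLp 2 (z ζ, Real.sqrt s • EuclideanSpace.single ζ (1 : ℝ)) :
        WithLp 2 (EuclideanSpace ℝ (Fin N) × EuclideanSpace ℝ κ)) -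
        WithLp.toLp 2 (z ζ', Real.sqrt s • EuclideanSpace.single ζ' (1 : ℝ))‖ ^ 2 = _
      rw [toLp_sub_norm, ← smul_sub, norm_smul, mul_pow, Real.norm_eq_abs, sq_abs, hsq]
      congr 1
      by_cases h : ζ = ζ'
      · subst h
        simp
      · rw [if_neg h, norm_sub_sq_real, EuclideanSpace.inner_single_left]
        simp [h]
        ring
    have hwz : ∀ ζ, ‖w ζ - WithLp.toLp 2 (z ζ, 0)‖ ^ 2 = s := by
      intro ζ
      change ‖(WithLp.toLp 2 (z ζ, Real.sqrt s • EuclideanSpace.single ζ (1 : ℝ)) :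
        WithLp 2 (EuclideanSpace ℝ (Fin N) × EuclideanSpace ℝ κ)) -
        WithLp.toLp 2 (z ζ, 0)‖ ^ 2 = _
      rw [toLp_sub_norm, sub_self, norm_zero, sub_zero, norm_smul, mul_pow, Real.norm_eq_abs,
        sq_abs, hsq]
      simp
    obtain ⟨ν, hν, p₁, V, hV⟩ := hx (k + 1)
    obtain ⟨τ, hτ, q, y, hy⟩ := hW.fr (α := ν → Fin (k + 1))
    have hφ : ∀ g₁ : ι → ν, ∃ φ : EuclideanSpace ℝ (Fin d) →
        WithLp 2 (EuclideanSpace ℝ (Fin p₁) × EuclideanSpace ℝ (Fin d)),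
        (∀ i j, ‖V (g₁ i) - V (g₁ j)‖ ^ 2 = ‖x i - x j‖ ^ 2) →
        (∀ u v, ‖φ u - φ v‖ ^ 2 = ‖u - v‖ ^ 2) ∧ ∀ i, φ (x i) = WithLp.toLp 2 (V (g₁ i), 0) := by
      intro g₁
      by_cases h : ∀ i j, ‖V (g₁ i) - V (g₁ j)‖ ^ 2 = ‖x i - x j‖ ^ 2
      · obtain ⟨φ, h1, h2⟩ := exists_extension x (fun i => V (g₁ i)) h
        exact ⟨φ, fun _ => ⟨h1, h2⟩⟩
      · exact ⟨fun _ => 0, fun h' => absurd h' h⟩
    choose φ hφ using hφ
    have hψ : ∀ g₂ : κ → τ, ∃ ψ : WithLp 2 (EuclideanSpace ℝ (Fin N) × EuclideanSpace ℝ κ) →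
        WithLp 2 (EuclideanSpace ℝ (Fin q) ×
          WithLp 2 (EuclideanSpace ℝ (Fin N) × EuclideanSpace ℝ κ)),
        (∀ i j, ‖y (g₂ i) - y (g₂ j)‖ ^ 2 = ‖w i - w j‖ ^ 2) →
        (∀ u v, ‖ψ u - ψ v‖ ^ 2 = ‖u - v‖ ^ 2) ∧ ∀ i, ψ (w i) = WithLp.toLp 2 (y (g₂ i), 0) := by
      intro g₂
      by_cases h : ∀ i j, ‖y (g₂ i) - y (g₂ j)‖ ^ 2 = ‖w i - w j‖ ^ 2
      · obtain ⟨ψ, h1, h2⟩ := exists_extension w (fun i => y (g₂ i)) h
        exact ⟨ψ, fun _ => ⟨h1, h2⟩⟩
      · exact ⟨fun _ => 0, fun h' => absurd h' h⟩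
    choose ψ hψ using hψ
    have : Fintype ((ν × τ) ⊕ ((ι → ν) × (κ → τ) × κ)) := Fintype.ofFinite _
    refine FR.of_space (κ := (ν × τ) ⊕ ((ι → ν) × (κ → τ) × κ))
      (H := WithLp 2 (WithLp 2 (EuclideanSpace ℝ (Fin p₁) × EuclideanSpace ℝ (Fin d)) ×
        WithLp 2 (EuclideanSpace ℝ (Fin q) ×
          WithLp 2 (EuclideanSpace ℝ (Fin N) × EuclideanSpace ℝ κ))))
      (Sum.elim (fun a => WithLp.toLp 2 (WithLp.toLp 2 (V a.1, 0), WithLp.toLp 2 (y a.2, 0)))
        (fun b => WithLp.toLp 2 (φ b.1 p, ψ b.2.1 (WithLp.toLp 2 (z b.2.2, 0))))) ?_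
    intro c
    obtain ⟨g₂, hg₂, hc₂⟩ := hy (fun l v => c (Sum.inl (v, l)))
    obtain ⟨g₁, hg₁, hc₁⟩ := hV (fun v => c (Sum.inl (v, g₂ ζ₀)))
    obtain ⟨hφ1, hφ2⟩ := hφ g₁ hg₁
    obtain ⟨hψ1, hψ2⟩ := hψ g₂ (fun i j => by rw [hg₂ i j, hw i j])
    rcases isEmpty_or_nonempty ι with hι | ⟨⟨i₀⟩⟩
    · refine ⟨fun _ => Sum.inr (g₁, g₂, ζ₀), ?_, fun _ _ => rfl⟩
      rintro (_ | i) (_ | j)
      · simp [extD]
      · exact hι.elim j
      · exact hι.elim i
      · exact hι.elim i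
    by_cases hred : ∃ ζ, c (Sum.inr (g₁, g₂, ζ)) = c (Sum.inl (g₁ i₀, g₂ ζ₀))
    · obtain ⟨ζ, hζ⟩ := hred
      have hcol : ∀ i, c (Sum.inl (g₁ i, g₂ ζ)) = c (Sum.inl (g₁ i₀, g₂ ζ₀)) := by
        intro i
        have h1 := congrFun (hc₂ ζ ζ₀) (g₁ i)
        exact Eq.trans h1 (hc₁ i i₀)
      have hdist : ∀ i, ‖(WithLp.toLp 2 (WithLp.toLp 2 (V (g₁ i), 0), WithLp.toLp 2 (y (g₂ ζ), 0)) :
          WithLp 2 (WithLp 2 (EuclideanSpace ℝ (Fin p₁) × EuclideanSpace ℝ (Fin d)) ×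
          WithLp 2 (EuclideanSpace ℝ (Fin q) ×
          WithLp 2 (EuclideanSpace ℝ (Fin N) × EuclideanSpace ℝ κ)))) -
          WithLp.toLp 2 (φ g₁ p, ψ g₂ (WithLp.toLp 2 (z ζ, 0)))‖ ^ 2 = ‖x i - p‖ ^ 2 + s := by
        intro i
        rw [toLp_sub_norm, ← hφ2 i, hφ1, ← hψ2 ζ, hψ1, hwz]
      refine ⟨fun o => o.elim (Sum.inr (g₁, g₂, ζ)) (fun i => Sum.inl (g₁ i, g₂ ζ)), ?_, ?_⟩
      · rintro (_ | i) (_ | j)
        · simp [extD]
        · rw [norm_sub_rev]
          exact hdist j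
        · exact hdist i
        · change ‖(WithLp.toLp 2 (WithLp.toLp 2 (V (g₁ i), 0), WithLp.toLp 2 (y (g₂ ζ), 0)) :
            WithLp 2 (WithLp 2 (EuclideanSpace ℝ (Fin p₁) × EuclideanSpace ℝ (Fin d)) ×
            WithLp 2 (EuclideanSpace ℝ (Fin q) ×
            WithLp 2 (EuclideanSpace ℝ (Fin N) × EuclideanSpace ℝ κ)))) -
            WithLp.toLp 2 (WithLp.toLp 2 (V (g₁ j), 0), WithLp.toLp 2 (y (g₂ ζ), 0))‖ ^ 2 =
            ‖x i - x j‖ ^ 2
          rw [toLp_sub_norm, toLp_sub_norm, hg₁ i j]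
          simp
      · have hall : ∀ o : Option ι, c (o.elim (Sum.inr (g₁, g₂, ζ))
            (fun i => Sum.inl (g₁ i, g₂ ζ))) = c (Sum.inl (g₁ i₀, g₂ ζ₀)) := by
          rintro (_ | i)
          · exact hζ
          · exact hcol i
        intro a b
        rw [hall a, hall b]
    · push Not at hred
      obtain ⟨g, hg, hgc⟩ := hz (fun ζ =>
        (finSuccAboveEquiv (c (Sum.inl (g₁ i₀, g₂ ζ₀)))).symm ⟨c (Sum.inr (g₁, g₂, ζ)), hred ζ⟩)
      refine ⟨fun o => Sum.inr (g₁, g₂, g o), fun a b => ?_, fun a b => ?_⟩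
      · change ‖(WithLp.toLp 2 (φ g₁ p, ψ g₂ (WithLp.toLp 2 (z (g a), 0))) :
            WithLp 2 (WithLp 2 (EuclideanSpace ℝ (Fin p₁) × EuclideanSpace ℝ (Fin d)) ×
            WithLp 2 (EuclideanSpace ℝ (Fin q) ×
            WithLp 2 (EuclideanSpace ℝ (Fin N) × EuclideanSpace ℝ κ)))) -
            WithLp.toLp 2 (φ g₁ p, ψ g₂ (WithLp.toLp 2 (z (g b), 0)))‖ ^ 2 = _
        rw [toLp_sub_norm, hψ1, sub_self (φ g₁ p), toLp_sub_norm, hg a b]
        simp
      · have h1 := (finSuccAboveEquiv (c (Sum.inl (g₁ i₀, g₂ ζ₀)))).symm.injective (hgc a b)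
        exact congrArg Subtype.val h1

/-- Compactness: from colourings of the whole space to a finite witness. -/
theorem compactness {ι : Type} [Finite ι] {D : ι → ι → ℝ} {r N : ℕ}
    (h : ∀ c : EuclideanSpace ℝ (Fin N) → Fin r, ∃ g : ι → EuclideanSpace ℝ (Fin N),
      (∀ i j, ‖g i - g j‖ ^ 2 = D i j) ∧ ∀ i j, c (g i) = c (g j)) : FR (Fin r) D := by
  classical
  rcases r with _ | r
  · exact ⟨Unit, inferInstance, 0, fun _ => 0, fun c => (c ()).elim0⟩
  cases nonempty_fintype ι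
  -- good embeddings
  let G := {g : ι → EuclideanSpace ℝ (Fin N) // ∀ i j, ‖g i - g j‖ ^ 2 = D i j}
  let U : G → Set (EuclideanSpace ℝ (Fin N) → Fin (r + 1)) :=
    fun g => {c | ∀ i j, c (g.1 i) = c (g.1 j)}
  have hU : ∀ g, IsOpen (U g) := by
    intro g
    have h1 : U g = ⋂ i, ⋂ j, {c | c (g.1 i) = c (g.1 j)} := by
      ext c
      simp [U]
    rw [h1]
    refine isOpen_iInter_of_finite fun i => isOpen_iInter_of_finite fun j => ?_
    have h2 : Continuous
        (fun c : EuclideanSpace ℝ (Fin N) → Fin (r + 1) => (c (g.1 i), c (g.1 j))) :=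
      (continuous_apply _).prodMk (continuous_apply _)
    exact (isOpen_discrete {p : Fin (r + 1) × Fin (r + 1) | p.1 = p.2}).preimage h2
  have hcover : (Set.univ : Set (EuclideanSpace ℝ (Fin N) → Fin (r + 1))) ⊆ ⋃ g, U g := by
    intro c _
    obtain ⟨g, hg, hc⟩ := h c
    exact Set.mem_iUnion.2 ⟨⟨g, hg⟩, hc⟩
  obtain ⟨t, ht⟩ := isCompact_univ.elim_finite_subcover U hU hcover
  refine ⟨t × ι, inferInstance, N, fun a => a.1.1.1 a.2, fun c => ?_⟩
  let C : EuclideanSpace ℝ (Fin N) → Fin (r + 1) := fun v =>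
    if hv : ∃ a : t × ι, a.1.1.1 a.2 = v then c hv.choose else 0
  have hC := ht (Set.mem_univ C)
  rw [Set.mem_iUnion₂] at hC
  obtain ⟨g, hgt, hg⟩ := hC
  have hex : ∀ i, ∃ a : t × ι, a.1.1.1 a.2 = g.1 i := fun i => ⟨(⟨g, hgt⟩, i), rfl⟩
  have hCe : ∀ i, C (g.1 i) = c (hex i).choose := fun i => dif_pos (hex i)
  refine ⟨fun i => (hex i).choose, fun i j => ?_, fun i j => ?_⟩
  · have h1 : ∀ i, (hex i).choose.1.1.1 (hex i).choose.2 = g.1 i := fun i => (hex i).choose_spec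
    change ‖(hex i).choose.1.1.1 (hex i).choose.2 - (hex j).choose.1.1.1 (hex j).choose.2‖ ^ 2 = _
    rw [h1, h1]
    exact g.2 i j
  · rw [← hCe i, ← hCe j]
    exact hg i j

end Pool.Agent.Lib.MP_d7e043_co
end
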